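import Pool.Agent.LBern.Main

/-!
# The order of the `L_1` Bernstein constant of hyperbolic cross polynomials

For all `d ≥ 1`, `r > 0`, `α ∈ ℝ^d`: `B_1(N; d, r, α)` is of the order `N^r`.
-/

namespace Pool.Agent.Results.MP_969ff5_an.BernsteinOrder

open MeasureTheory

/-- The hyperbolic cross `Γ(N)`: all `k ∈ ℤ^d` with `∏_j max(|k_j|, 1) ≤ N`. -/
def hyperbolicCross (d N : ℕ) : Set (Fin d → ℤ) := {k | ∏ j, max |k j| 1 ≤ (N : ℤ)}

theorem coe_Gam (d N : ℕ) : (↑(Pool.Agent.LBern.Gam d N) : Set (Fin d → ℤ)) = hyperbolicCross d N := by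
  ext k
  rw [Finset.mem_coe, Pool.Agent.LBern.mem_Gam]
  exact Iff.rfl

theorem finite_hyperbolicCross (d N : ℕ) : (hyperbolicCross d N).Finite := by
  rw [← coe_Gam]
  exact Finset.finite_toSet _

/-- The element `t(x) = ∑_{k ∈ Γ(N)} c(k) e^{i (k, x)}` of `T(N)` with coefficients `c(k)`. -/
noncomputable def trigPoly (d N : ℕ) (c : (Fin d → ℤ) → ℂ) (x : Fin d → ℝ) : ℂ :=
  ∑ k ∈ (finite_hyperbolicCross d N).toFinset,
    c k * Complex.exp (Complex.I * ∑ j, (k j : ℂ) * (x j : ℂ))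

/-- `μ(0, a) = 1` and `μ(k, a) = |k|^r e^{i sign(k) a π / 2}` for `k ≠ 0`. -/
noncomputable def mu (r a : ℝ) (k : ℤ) : ℂ :=
  if k = 0 then 1 else ((|(k : ℝ)| ^ r : ℝ) : ℂ) *
    Complex.exp (((SignType.sign (k : ℝ) : ℝ) * a * Real.pi / 2 : ℝ) * Complex.I)

/-- The `(r, α)`-derivative of the polynomial with coefficients `c(k)`: the element of `T(N)` with
coefficients `c(k) ∏_j μ(k_j, α_j)`. -/
noncomputable def rDeriv (d N : ℕ) (r : ℝ) (α : Fin d → ℝ) (c : (Fin d → ℤ) → ℂ) :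
    (Fin d → ℝ) → ℂ :=
  trigPoly d N fun k => c k * ∏ j, mu r (α j) (k j)

/-- The normalised `L_1` norm over `[0, 2π]^d`. -/
noncomputable def norm1 (d : ℕ) (f : (Fin d → ℝ) → ℂ) : ℝ :=
  ((2 * Real.pi) ^ d)⁻¹ * ∫ x in Set.pi Set.univ (fun _ => Set.Icc (0 : ℝ) (2 * Real.pi)), ‖f x‖

/-- The ratios `‖t^{(r)}(·, α)‖_1 / ‖t‖_1` for `0 ≠ t ∈ T(N)`. -/
noncomputable def ratioSet (d : ℕ) (r : ℝ) (α : Fin d → ℝ) (N : ℕ) : Set ℝ :=
  {ρ | ∃ c : (Fin d → ℤ) → ℂ, trigPoly d N c ≠ 0 ∧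
    ρ = norm1 d (rDeriv d N r α c) / norm1 d (trigPoly d N c)}

/-- `B_1(N; d, r, α)`: the supremum of the ratios. -/
noncomputable def bernsteinConst (d : ℕ) (r : ℝ) (α : Fin d → ℝ) (N : ℕ) : ℝ :=
  sSup (ratioSet d r α N)

theorem trigPoly_eq (d N : ℕ) (c : (Fin d → ℤ) → ℂ) :
    trigPoly d N c = Pool.Agent.LBern.poly d N c := by
  have h : (finite_hyperbolicCross d N).toFinset = Pool.Agent.LBern.Gam d N := by
    apply Finset.coe_injective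
    rw [Set.Finite.coe_toFinset, coe_Gam]
  funext x
  unfold trigPoly Pool.Agent.LBern.poly
  rw [h]

theorem ratioSet_eq (d : ℕ) (r : ℝ) (α : Fin d → ℝ) (N : ℕ) :
    ratioSet d r α N = Pool.Agent.LBern.ratios d r α N := by
  unfold ratioSet Pool.Agent.LBern.ratios rDeriv
  simp only [trigPoly_eq]
  rfl

/-- The order of `B_1(N)` is `N^r`: for all `d ≥ 1`, `r > 0`, `α` there is a constant `C` such that
for all `N ≥ 1` the ratios are bounded and `N^r ≤ B_1(N) ≤ C N^r`. -/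
theorem result (d : ℕ) (hd : 1 ≤ d) (r : ℝ) (hr : 0 < r) (α : Fin d → ℝ) :
    ∃ C : ℝ, 0 < C ∧ ∀ N : ℕ, 1 ≤ N →
      BddAbove (ratioSet d r α N) ∧
      (N : ℝ) ^ r ≤ bernsteinConst d r α N ∧ bernsteinConst d r α N ≤ C * (N : ℝ) ^ r := by
  obtain ⟨C, hC, h⟩ := Pool.Agent.LBern.main d hd r hr α
  refine ⟨C, hC, fun N hN => ?_⟩
  unfold bernsteinConst
  rw [ratioSet_eq]
  exact h N hN

end Pool.Agent.Results.MP_969ff5_an.BernsteinOrder
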